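import Mathlib

/-!
# A coanalytic null-finite set contained in no Borel null-finite set

We work in the Polish group `X = ℤ^ω × (ℤ/2)^ω`.  The signs of the coordinates of `x ∈ ℤ^ω` code,
continuously in `x`, a sequence of points `p_j(x) ∈ (ℤ/2)^ω` and a sequence of trees `T_j(x)` on `ω`;
every nonempty analytic set `B ⊆ X` has a code `e` such that, if the sign sequence of `x` is the code
of `B` together with points `w_j`, then `T_j(x)` has an infinite branch iff `(x, w_j) ∈ B`.
The coanalytic set `D = {(x, j) : T_j(x) has no infinite branch}` is uniformised (in the number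
variable) by a coanalytic set `D*`, and `A = {(x, p_j(x)) : (x, j) ∈ D*}`.  It has at most one point
in each fibre, hence is null-finite, and every analytic (in particular every Borel) set
containing `A` contains a translate of every null-sequence.
-/

namespace Pool.Agent.Results.MP_ceb5ee_gt.CoanalyticNoHull

open Set Filter Topology MeasureTheory TopologicalSpace

/-- A set is null-finite if there is a sequence `s n → 0` such that for each `x` only finitely many
`n` satisfy `x + s n ∈ A`. -/
def NullFinite {X : Type*} [AddCommGroup X] [TopologicalSpace X] (A : Set X) : Prop :=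
  ∃ s : ℕ → X, Tendsto s atTop (𝓝 0) ∧ ∀ x : X, {n | x + s n ∈ A}.Finite

/-! ### Trees -/

/-- the one-step extension relation of the tree given by `C` -/
def Ext (C : List ℕ → Prop) (t s : List ℕ) : Prop := (∃ a, t = a :: s) ∧ C t

/-- all nonempty suffixes of the node are in `C` -/
def Tr (C : List ℕ → Prop) : List ℕ → Prop
  | [] => True
  | a :: s => C (a :: s) ∧ Tr C s

/-- initial segment of `b` of length `n`, newest element first -/
def pre (b : ℕ → ℕ) : ℕ → List ℕ
  | 0 => []
  | n + 1 => b n :: pre b n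

lemma pre_length (b : ℕ → ℕ) (n : ℕ) : (pre b n).length = n := by
  induction n with
  | zero => rfl
  | succ n ih => simp [pre, ih]

/-- there is an infinite branch -/
def Br (C : List ℕ → Prop) : Prop := ∃ b : ℕ → ℕ, ∀ n, C (pre b (n + 1))

/-- the level preserving map given by `F`, with base node `r` -/
def lev (F : List ℕ → ℕ) (r : List ℕ) : List ℕ → List ℕ
  | [] => r
  | a :: s => F (a :: s) :: lev F r s

/-- `F` maps the tree of `S` into the tree of `T` above the node `r` -/
def Maps (S T : List ℕ → Prop) (r : List ℕ) (F : List ℕ → ℕ) : Prop :=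
  ∀ s, Tr S s → Tr T (lev F r s)

/-- `S ⪯ T` -/
def Le (S T : List ℕ → Prop) : Prop := ∃ F, Maps S T [] F

/-- `S ≺ T` -/
def Lt (S T : List ℕ → Prop) : Prop := ∃ m F, Maps S T [m] F

lemma acc_iff_not_br (C : List ℕ → Prop) : Acc (Ext C) [] ↔ ¬ Br C := by
  constructor
  · rintro h ⟨b, hb⟩
    -- no accessible node is an initial segment
    have key : ∀ s, Acc (Ext C) s → ∀ n, s ≠ pre b n := by
      intro s hs
      induction hs with
      | intro s _ ih =>
        intro n hn
        refine ih (pre b (n + 1)) ⟨⟨b n, ?_⟩, hb n⟩ (n + 1) rfl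
        rw [hn]
        rfl
    exact key [] h 0 rfl
  · intro h
    by_contra hna
    apply h
    -- build a branch out of non-accessible nodes
    have step : ∀ s : {s : List ℕ // ¬ Acc (Ext C) s},
        ∃ a : ℕ, C (a :: s.1) ∧ ¬ Acc (Ext C) (a :: s.1) := by
      rintro ⟨s, hs⟩
      by_contra hcon
      push Not at hcon
      apply hs
      refine ⟨_, ?_⟩
      rintro t ⟨⟨a, rfl⟩, ht⟩
      exact hcon a ht
    choose a ha1 ha2 using step
    let q : ℕ → {s : List ℕ // ¬ Acc (Ext C) s} := fun n =>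
      Nat.rec ⟨[], hna⟩ (fun _ p => ⟨a p :: p.1, ha2 p⟩) n
    have hq : ∀ n, q (n + 1) = ⟨a (q n) :: (q n).1, ha2 (q n)⟩ := fun n => rfl
    have hpre : ∀ n, (q n).1 = pre (fun n => a (q n)) n := by
      intro n
      induction n with
      | zero => rfl
      | succ n ih =>
        rw [hq]
        show a (q n) :: (q n).1 = a (q n) :: pre (fun n => a (q n)) n
        rw [ih]
    refine ⟨fun n => a (q n), fun n => ?_⟩
    rw [← hpre, hq]
    exact ha1 (q n)

/-- level preserving maps do not decrease ranks -/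
lemma acc_of_maps {S T : List ℕ → Prop} {r : List ℕ} {F : List ℕ → ℕ}
    (h : ∀ s, Tr S s → Tr T (lev F r s) ) :
    ∀ t, Acc (Ext T) t → ∀ s, Tr S s → t = lev F r s → Acc (Ext S) s := by
  intro t ht
  induction ht with
  | intro t _ ih =>
    intro s hs hts
    refine ⟨_, ?_⟩
    rintro u ⟨⟨a, rfl⟩, hu⟩
    have h1 : Tr S (a :: s) := ⟨hu, hs⟩
    have h2 := h _ h1
    refine ih (lev F r (a :: s)) ⟨⟨F (a :: s), ?_⟩, ?_⟩ (a :: s) h1 rfl
    · rw [hts]
      rfl
    · exact h2.1

lemma rank_le_of_maps {S T : List ℕ → Prop} {r : List ℕ} {F : List ℕ → ℕ}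
    (h : ∀ s, Tr S s → Tr T (lev F r s)) :
    ∀ t, ∀ ht : Acc (Ext T) t, ∀ s, Tr S s → t = lev F r s →
      ∀ hs : Acc (Ext S) s, hs.rank ≤ ht.rank := by
  intro t ht
  induction ht with
  | intro t ht ih =>
    intro s hs hts has
    rw [Acc.rank_eq]
    apply Ordinal.iSup_le
    rintro ⟨u, ⟨a, rfl⟩, hu⟩
    rw [Order.succ_le_iff]
    have h1 : Tr S (a :: s) := ⟨hu, hs⟩
    have h2 := h _ h1
    have h3 : Ext T (lev F r (a :: s)) t := by
      refine ⟨⟨F (a :: s), ?_⟩, ?_⟩
      · rw [hts]
        rfl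
      · exact h2.1
    have h4 := ih _ h3 (a :: s) h1 rfl (has.inv ⟨⟨a, rfl⟩, hu⟩)
    exact lt_of_le_of_lt h4 (Acc.rank_lt_of_rel (Acc.intro t ht) h3)

/-- maps are built from inequalities between ranks -/
lemma exists_maps {S T : List ℕ → Prop} (hS : Acc (Ext S) []) {r : List ℕ} (hT : Acc (Ext T) r)
    (hr : Tr T r) (h : hS.rank ≤ hT.rank) : ∃ F, Maps S T r F := by
  classical
  -- one step
  have step : ∀ (a : ℕ) (s t : List ℕ), ∃ b : ℕ,
      ∀ (hs : Acc (Ext S) s) (ht : Acc (Ext T) t), hs.rank ≤ ht.rank → ∀ hC : S (a :: s),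
        ∃ hb : T (b :: t), (hs.inv (⟨⟨a, rfl⟩, hC⟩ : Ext S (a :: s) s)).rank ≤
          (ht.inv (⟨⟨b, rfl⟩, hb⟩ : Ext T (b :: t) t)).rank := by
    intro a s t
    by_cases hc : ∃ (hs : Acc (Ext S) s) (ht : Acc (Ext T) t), hs.rank ≤ ht.rank ∧ S (a :: s)
    · obtain ⟨hs, ht, hle, hC⟩ := hc
      have h1 : (hs.inv (⟨⟨a, rfl⟩, hC⟩ : Ext S (a :: s) s)).rank < ht.rank :=
        lt_of_lt_of_le (Acc.rank_lt_of_rel hs ⟨⟨a, rfl⟩, hC⟩) hle
      rw [Acc.rank_eq ht, Ordinal.lt_iSup_iff] at h1
      obtain ⟨⟨u, ⟨b, rfl⟩, hb⟩, h2⟩ := h1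
      rw [Order.lt_succ_iff] at h2
      exact ⟨b, fun hs' ht' _ _ => ⟨hb, h2⟩⟩
    · push Not at hc
      exact ⟨0, fun hs ht hle hC => absurd hC (hc hs ht hle)⟩
  choose G hG using step
  let f : List ℕ → List ℕ := fun s => List.rec r (fun a s t => G a s t :: t) s
  have hf0 : f [] = r := rfl
  have hfs : ∀ a s, f (a :: s) = G a s (f s) :: f s := fun a s => rfl
  let F : List ℕ → ℕ := fun s => match s with
    | [] => 0
    | a :: s => G a s (f s)
  have hF : ∀ s, lev F r s = f s := by
    intro s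
    induction s with
    | nil => rfl
    | cons a s ih =>
      show G a s (f s) :: lev F r s = _
      rw [ih, hfs]
  refine ⟨F, ?_⟩
  have key : ∀ s, Tr S s → Tr T (f s) ∧ ∃ (hs : Acc (Ext S) s) (ht : Acc (Ext T) (f s)),
      hs.rank ≤ ht.rank := by
    intro s
    induction s with
    | nil => exact fun _ => ⟨hr, hS, hT, h⟩
    | cons a s ih =>
      rintro ⟨h1, h2⟩
      obtain ⟨h3, hs, ht, hle⟩ := ih h2
      obtain ⟨hb, h4⟩ := hG a s (f s) hs ht hle h1
      exact ⟨⟨hb, h3⟩, _, _, h4⟩
  intro s hs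
  rw [hF]
  exact (key s hs).1

/-- For well-founded trees, `S ⪯ T` or `T ≺ S`. -/
lemma le_or_lt {S T : List ℕ → Prop} (hS : ¬ Br S) (hT : ¬ Br T) : Le S T ∨ Lt T S := by
  rw [← acc_iff_not_br] at hS hT
  rcases le_or_gt hS.rank hT.rank with h | h
  · exact Or.inl (exists_maps hS hT trivial h)
  · right
    rw [Acc.rank_eq hS, Ordinal.lt_iSup_iff] at h
    obtain ⟨⟨u, ⟨m, rfl⟩, hm⟩, h2⟩ := h
    rw [Order.lt_succ_iff] at h2
    obtain ⟨F, hF⟩ := exists_maps hT (hS.inv (⟨⟨m, rfl⟩, hm⟩ : Ext S [m] [])) ⟨hm, trivial⟩ h2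
    exact ⟨m, F, hF⟩

/-- `i` beats `j` -/
def Beats (T : ℕ → List ℕ → Prop) (i j : ℕ) : Prop :=
  (i < j ∧ Le (T i) (T j)) ∨ (j < i ∧ Lt (T i) (T j))

/-- the selected indices -/
def Sel (T : ℕ → List ℕ → Prop) (j : ℕ) : Prop := ¬ Br (T j) ∧ ∀ i, ¬ Beats T i j

lemma sel_unique {T : ℕ → List ℕ → Prop} {j k : ℕ} (hj : Sel T j) (hk : Sel T k) : j = k := by
  by_contra hne
  wlog hlt : j < k generalizing j k
  · exact this hk hj (Ne.symm hne) (lt_of_le_of_ne (not_lt.1 hlt) (Ne.symm hne))
  rcases le_or_lt hj.1 hk.1 with h | h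
  · exact hk.2 j (Or.inl ⟨hlt, h⟩)
  · exact hj.2 k (Or.inr ⟨hlt, h⟩)

lemma exists_sel {T : ℕ → List ℕ → Prop} {j : ℕ} (hj : ¬ Br (T j)) : ∃ j, Sel T j := by
  classical
  -- the ranks of the well-founded trees
  let P : ℕ → Prop := fun j => ¬ Br (T j)
  let ρ : {j // P j} → Ordinal := fun j => ((acc_iff_not_br (T j.1)).2 j.2).rank
  have hne : (Set.range ρ).Nonempty := ⟨ρ ⟨j, hj⟩, ⟨_, rfl⟩⟩
  let o : Ordinal := sInf (Set.range ρ)
  have ho : o ∈ Set.range ρ := csInf_mem hne
  have hmin : ∀ j, o ≤ ρ j := fun j => csInf_le' ⟨j, rfl⟩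
  have hex : ∃ j, ∃ hj : P j, ρ ⟨j, hj⟩ = o := by
    obtain ⟨⟨j, hj⟩, h⟩ := ho
    exact ⟨j, hj, h⟩
  let k := Nat.find hex
  obtain ⟨hk, hko⟩ := Nat.find_spec hex
  have hkmin : ∀ i, i < k → ¬ ∃ hj : P i, ρ ⟨i, hj⟩ = o := fun i hi => Nat.find_min hex hi
  refine ⟨k, hk, ?_⟩
  have hkacc : Acc (Ext (T k)) [] := (acc_iff_not_br (T k)).2 hk
  have hkrank : hkacc.rank = o := hko
  rintro i (⟨hik, F, hF⟩ | ⟨hki, m, F, hF⟩)
  · have h1 : Acc (Ext (T i)) [] := acc_of_maps hF _ hkacc [] trivial rfl
    have h2 : h1.rank ≤ hkacc.rank := rank_le_of_maps hF _ hkacc [] trivial rfl h1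
    have h3 : P i := (acc_iff_not_br (T i)).1 h1
    refine hkmin i hik ⟨h3, le_antisymm ?_ (hmin _)⟩
    rw [← hkrank]
    exact h2
  · have h0 : Tr (T k) [m] := hF [] trivial
    have h0' : Ext (T k) [m] [] := ⟨⟨m, rfl⟩, h0.1⟩
    have h1 : Acc (Ext (T i)) [] := acc_of_maps hF _ (hkacc.inv h0') [] trivial rfl
    have h2 : h1.rank ≤ (hkacc.inv h0').rank :=
      rank_le_of_maps hF _ (hkacc.inv h0') [] trivial rfl h1
    have h3 : P i := (acc_iff_not_br (T i)).1 h1
    have h4 : (hkacc.inv h0').rank < hkacc.rank := Acc.rank_lt_of_rel hkacc h0'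
    have h5 : o ≤ h1.rank := hmin ⟨i, h3⟩
    rw [hkrank] at h4
    exact absurd (h5.trans h2) (not_le.2 h4)

/-! ### The coding -/

instance : IsCompletelyMetrizableSpace (ZMod 2) := inferInstance
instance : SecondCountableTopology (ZMod 2) := inferInstance
instance : PolishSpace (ZMod 2) := inferInstance

/-- the points `p_j(x)` coded by the signs of the coordinates of `x` -/
def p (x : ℕ → ℤ) (j : ℕ) : ℕ → ZMod 2 := fun k => if 0 ≤ x (2 * Nat.pair j k + 1) then 1 else 0

lemma continuous_p (j : ℕ) : Continuous fun x : ℕ → ℤ => p x j := by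
  refine continuous_pi fun k => ?_
  exact (continuous_of_discreteTopology (f := fun m : ℤ => if 0 ≤ m then (1 : ZMod 2) else 0)).comp
    (continuous_apply (2 * Nat.pair j k + 1))

/-- an injection of the set of pairs of words of length `n` into `ℕ` -/
noncomputable def iota (n : ℕ) : (Fin n → ℤ) × (Fin n → ZMod 2) → ℕ :=
  Classical.choose (exists_injective_nat ((Fin n → ℤ) × (Fin n → ZMod 2)))

lemma iota_injective (n : ℕ) : Function.Injective (iota n) :=
  Classical.choose_spec (exists_injective_nat ((Fin n → ℤ) × (Fin n → ZMod 2)))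

/-- restriction of a point to its first `n` coordinates -/
def restr (n : ℕ) (y : (ℕ → ℤ) × (ℕ → ZMod 2)) : (Fin n → ℤ) × (Fin n → ZMod 2) :=
  (fun i => y.1 i, fun i => y.2 i)

lemma continuous_restr (n : ℕ) : Continuous (restr n) := by
  refine Continuous.prodMk ?_ ?_
  · exact continuous_pi fun i => (continuous_apply _).comp continuous_fst
  · exact continuous_pi fun i => (continuous_apply _).comp continuous_snd

/-- the place where membership of `s` in the `j`th tree is coded -/
noncomputable def place (x : ℕ → ℤ) (j : ℕ) (s : List ℕ) : ℕ :=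
  Nat.pair (Encodable.encode s) (iota s.length (restr s.length (x, p x j)))

/-- the trees coded by `x` -/
def C (x : ℕ → ℤ) (j : ℕ) (s : List ℕ) : Prop := 0 ≤ x (2 * place x j s)

lemma continuous_place (j : ℕ) (s : List ℕ) : Continuous fun x => place x j s := by
  have h1 : Continuous fun x : ℕ → ℤ => restr s.length (x, p x j) :=
    (continuous_restr _).comp (Continuous.prodMk continuous_id (continuous_p j))
  exact (continuous_of_discreteTopology
    (f := fun q => Nat.pair (Encodable.encode s) (iota s.length q))).comp h1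

lemma measurableSet_C (j : ℕ) (s : List ℕ) : MeasurableSet {x | C x j s} := by
  have h : {x | C x j s} = ⋃ m : ℕ, ({x | place x j s = m} ∩ {x : ℕ → ℤ | 0 ≤ x (2 * m)}) := by
    ext x
    simp [C]
  rw [h]
  refine MeasurableSet.iUnion fun m => MeasurableSet.inter ?_ ?_
  · exact (continuous_place j s).measurable (measurableSet_singleton m)
  · exact measurableSet_le measurable_const (measurable_pi_apply (2 * m))

lemma measurableSet_Tr {α : Type*} [MeasurableSpace α] (g : α → List ℕ → Prop)
    (hg : ∀ s, MeasurableSet {x | g x s}) (s : List ℕ) : MeasurableSet {x | Tr (g x) s} := by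
  induction s with
  | nil => exact MeasurableSet.univ
  | cons a s ih => exact (hg (a :: s)).inter ih

lemma analyticSet_Br (j : ℕ) : AnalyticSet {x : ℕ → ℤ | Br (C x j)} := by
  have h : {x : ℕ → ℤ | Br (C x j)} = Prod.snd '' {q : (ℕ → ℕ) × (ℕ → ℤ) |
      ∀ n, C q.2 j (pre q.1 (n + 1))} := by
    ext x
    constructor
    · rintro ⟨b, hb⟩
      exact ⟨(b, x), hb, rfl⟩
    · rintro ⟨⟨b, y⟩, hb, rfl⟩
      exact ⟨b, hb⟩
  rw [h]
  refine AnalyticSet.image_of_continuous ?_ continuous_snd
  refine MeasurableSet.analyticSet ?_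
  rw [Set.ofPred_forall]
  refine MeasurableSet.iInter fun n => ?_
  have h2 : {q : (ℕ → ℕ) × (ℕ → ℤ) | C q.2 j (pre q.1 (n + 1))} =
      ⋃ s : List ℕ, ({q | pre q.1 (n + 1) = s} ∩ {q | C q.2 j s}) := by
    ext q
    simp
  rw [h2]
  refine MeasurableSet.iUnion fun s => MeasurableSet.inter ?_ ?_
  · have h3 : ∀ n (s : List ℕ), MeasurableSet {b : ℕ → ℕ | pre b n = s} := by
      intro n
      induction n with
      | zero =>
        intro s
        simp only [pre]
        exact MeasurableSet.const _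
      | succ n ih =>
        intro s
        cases s with
        | nil =>
          simp only [pre, reduceCtorEq]
          exact MeasurableSet.const _
        | cons a s =>
          simp only [pre, List.cons.injEq]
          exact ((measurable_pi_apply n) (measurableSet_singleton a)).inter (ih s)
    exact measurable_fst (h3 (n + 1) s)
  · exact measurable_snd (measurableSet_C j s)

lemma measurableSet_lev (r s : List ℕ) : ∀ t, MeasurableSet {F : List ℕ → ℕ | lev F r s = t} := by
  induction s with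
  | nil =>
    intro t
    simp only [lev]
    exact MeasurableSet.const _
  | cons a s ih =>
    intro t
    cases t with
    | nil =>
      simp only [lev, reduceCtorEq]
      exact MeasurableSet.const _
    | cons b t =>
      simp only [lev, List.cons.injEq]
      exact ((measurable_pi_apply (a :: s)) (measurableSet_singleton b)).inter (ih t)

lemma analyticSet_maps (i j : ℕ) (r : List ℕ) :
    AnalyticSet {x : ℕ → ℤ | ∃ F, Maps (C x i) (C x j) r F} := by
  have h : {x : ℕ → ℤ | ∃ F, Maps (C x i) (C x j) r F} = Prod.snd ''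
      {q : (List ℕ → ℕ) × (ℕ → ℤ) | ∀ s, Tr (C q.2 i) s → Tr (C q.2 j) (lev q.1 r s)} := by
    ext x
    constructor
    · rintro ⟨b, hb⟩
      exact ⟨(b, x), hb, rfl⟩
    · rintro ⟨⟨b, y⟩, hb, rfl⟩
      exact ⟨b, hb⟩
  rw [h]
  refine AnalyticSet.image_of_continuous ?_ continuous_snd
  refine MeasurableSet.analyticSet ?_
  rw [Set.ofPred_forall]
  refine MeasurableSet.iInter fun s => ?_
  have h2 : {q : (List ℕ → ℕ) × (ℕ → ℤ) | Tr (C q.2 i) s → Tr (C q.2 j) (lev q.1 r s)} =
      {q | Tr (C q.2 i) s}ᶜ ∪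
      ⋃ t : List ℕ, ({q | lev q.1 r s = t} ∩ {q | Tr (C q.2 j) t}) := by
    ext q
    simp [imp_iff_not_or]
  rw [h2]
  refine MeasurableSet.union ?_ (MeasurableSet.iUnion fun t => MeasurableSet.inter ?_ ?_)
  · exact (measurable_snd (measurableSet_Tr (fun x => C x i) (measurableSet_C i) s)).compl
  · exact measurable_fst (measurableSet_lev r s t)
  · exact measurable_snd (measurableSet_Tr (fun x => C x j) (measurableSet_C j) t)

lemma analyticSet_beats (i j : ℕ) : AnalyticSet {x : ℕ → ℤ | Beats (C x) i j} := by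
  rcases lt_trichotomy i j with h | h | h
  · have h1 : {x : ℕ → ℤ | Beats (C x) i j} = {x : ℕ → ℤ | ∃ F, Maps (C x i) (C x j) [] F} := by
      ext x
      simp only [Beats, Le, Set.mem_ofPred_eq, h, true_and, not_lt.2 h.le, false_and, or_false]
    rw [h1]
    exact analyticSet_maps i j []
  · subst h
    have h1 : {x : ℕ → ℤ | Beats (C x) i i} = ∅ := by
      ext x
      simp [Beats]
    rw [h1]
    exact analyticSet_empty
  · have h1 : {x : ℕ → ℤ | Beats (C x) i j} =
        ⋃ m : ℕ, {x : ℕ → ℤ | ∃ F, Maps (C x i) (C x j) [m] F} := by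
      ext x
      simp only [Beats, Lt, Set.mem_ofPred_eq, h, true_and, not_lt.2 h.le, false_and, false_or,
        mem_iUnion]
    rw [h1]
    exact AnalyticSet.iUnion fun m => analyticSet_maps i j [m]

lemma analyticSet_not_sel (j : ℕ) : AnalyticSet {x : ℕ → ℤ | ¬ Sel (C x) j} := by
  have h : {x : ℕ → ℤ | ¬ Sel (C x) j} =
      ⋃ i : ℕ, ({x : ℕ → ℤ | Br (C x j)} ∪ {x | Beats (C x) i j}) := by
    ext x
    simp only [Sel, Set.mem_ofPred_eq, mem_iUnion, mem_union]
    constructor
    · intro h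
      by_cases hb : Br (C x j)
      · exact ⟨0, Or.inl hb⟩
      · push Not at h
        obtain ⟨i, hi⟩ := h hb
        exact ⟨i, Or.inr hi⟩
    · rintro ⟨i, h | h⟩ ⟨h1, h2⟩
      · exact h1 h
      · exact h2 i h
  rw [h]
  refine AnalyticSet.iUnion fun i => ?_
  rw [Set.union_eq_iUnion]
  refine AnalyticSet.iUnion fun b => ?_
  cases b
  · exact analyticSet_beats i j
  · exact analyticSet_Br j

/-! ### The set -/

/-- the coanalytic set -/
def A : Set ((ℕ → ℤ) × (ℕ → ZMod 2)) := {y | ∃ j, Sel (C y.1) j ∧ y.2 = p y.1 j}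

lemma analyticSet_compl_A : AnalyticSet Aᶜ := by
  have h : Aᶜ = ⋂ j : ℕ, ⋃ b : Bool, bif b then {y : (ℕ → ℤ) × (ℕ → ZMod 2) | y.2 ≠ p y.1 j}
      else Prod.fst ⁻¹' {x : ℕ → ℤ | ¬ Sel (C x) j} := by
    ext y
    simp only [A, mem_compl_iff, Set.mem_ofPred_eq, not_exists, not_and, mem_iInter, mem_iUnion,
      Bool.exists_bool, cond_false, cond_true, mem_preimage]
    refine forall_congr' fun j => ?_
    tauto
  rw [h]
  refine AnalyticSet.iInter fun j => AnalyticSet.iUnion fun b => ?_
  cases b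
  · exact AnalyticSet.preimage (analyticSet_not_sel j) continuous_fst
  · have h1 : IsOpen {y : (ℕ → ℤ) × (ℕ → ZMod 2) | y.2 ≠ p y.1 j} :=
      isOpen_ne_fun continuous_snd ((continuous_p j).comp continuous_fst)
    have h2 := h1.analyticSet_image continuous_id
    rw [Set.image_id] at h2
    exact h2

lemma nullFinite_A : NullFinite A := by
  refine ⟨fun n => (0, Pi.single n 1), ?_, fun y => ?_⟩
  · rw [Prod.tendsto_iff]
    refine ⟨tendsto_const_nhds, ?_⟩
    rw [tendsto_pi_nhds]
    intro k
    refine tendsto_const_nhds.congr' ?_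
    filter_upwards [eventually_gt_atTop k] with n hn
    simp [hn.ne]
  · apply Set.Subsingleton.finite
    rintro m ⟨j, hj1, hj2⟩ n ⟨k, hk1, hk2⟩
    have h1 : (y + (0, Pi.single m 1)).1 = (y + (0, Pi.single n 1)).1 := by simp
    rw [← h1] at hk1
    have h2 : j = k := sel_unique hj1 hk1
    subst h2
    rw [← h1, ← hj2] at hk2
    have h3 : (Pi.single n 1 : ℕ → ZMod 2) = Pi.single m 1 := by
      have : y.2 + (Pi.single n 1 : ℕ → ZMod 2) = y.2 + Pi.single m 1 := hk2
      exact add_left_cancel this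
    by_contra hne
    have h4 := congrFun h3 m
    rw [Pi.single_eq_same, Pi.single_eq_of_ne hne] at h4
    exact zero_ne_one h4

/-- Every analytic set containing `A` contains a translate of every null-sequence. -/
lemma translate_subset {B : Set ((ℕ → ℤ) × (ℕ → ZMod 2))} (hB : AnalyticSet B) (hAB : A ⊆ B)
    {s : ℕ → (ℕ → ℤ) × (ℕ → ZMod 2)} (hs : Tendsto s atTop (𝓝 0)) : ∃ x, ∀ n, x + s n ∈ B := by
  classical
  -- the code of `B`
  obtain ⟨K, hK1, hK2⟩ : ∃ K : List ℕ → ℕ → Prop,
      (∀ y b, (∀ n, K (pre b (n + 1)) (iota (n + 1) (restr (n + 1) y))) → y ∈ B) ∧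
      (∀ y ∈ B, ∃ b, ∀ n, K (pre b (n + 1)) (iota (n + 1) (restr (n + 1) y))) := by
    rw [AnalyticSet] at hB
    rcases hB with hB | ⟨f, hf, rfl⟩
    · subst hB
      exact ⟨fun _ _ => False, fun y b h => absurd (h 0) not_false, fun y hy => absurd hy
        (Set.notMem_empty y)⟩
    · refine ⟨fun t m => ∃ b, pre b t.length = t ∧ iota t.length (restr t.length (f b)) = m,
        ?_, ?_⟩
      · intro y b h
        have h' : ∀ n, ∃ b' : ℕ → ℕ, pre b' (n + 1) = pre b (n + 1) ∧
            restr (n + 1) (f b') = restr (n + 1) y := by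
          intro n
          obtain ⟨b', h1, h2⟩ := h n
          rw [pre_length] at h1 h2
          exact ⟨b', h1, iota_injective _ h2⟩
        choose b' hb1 hb2 using h'
        have hpre : ∀ (c d : ℕ → ℕ) n, pre c n = pre d n → ∀ i < n, c i = d i := by
          intro c d n
          induction n with
          | zero => intro _ i hi; exact absurd hi (Nat.not_lt_zero i)
          | succ n ih =>
            intro hcd i hi
            simp only [pre, List.cons.injEq] at hcd
            rcases Nat.lt_succ_iff_lt_or_eq.1 hi with h1 | h1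
            · exact ih hcd.2 i h1
            · rw [h1]
              exact hcd.1
        have hlim : Tendsto b' atTop (𝓝 b) := by
          rw [tendsto_pi_nhds]
          intro i
          refine tendsto_const_nhds.congr' ?_
          filter_upwards [eventually_ge_atTop i] with n hn
          exact (hpre _ _ _ (hb1 n) i (Nat.lt_succ_of_le hn)).symm
        have hlim1 : Tendsto (fun n => f (b' n)) atTop (𝓝 (f b)) :=
          (hf.tendsto b).comp hlim
        have hlim2 : Tendsto (fun n => f (b' n)) atTop (𝓝 y) := by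
          rw [Prod.tendsto_iff, tendsto_pi_nhds, tendsto_pi_nhds]
          constructor
          · intro i
            refine tendsto_const_nhds.congr' ?_
            filter_upwards [eventually_ge_atTop i] with n hn
            have := congrArg (fun q => q.1 ⟨i, Nat.lt_succ_of_le hn⟩) (hb2 n)
            exact this.symm
          · intro i
            refine tendsto_const_nhds.congr' ?_
            filter_upwards [eventually_ge_atTop i] with n hn
            have := congrArg (fun q => q.2 ⟨i, Nat.lt_succ_of_le hn⟩) (hb2 n)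
            exact this.symm
        exact ⟨b, tendsto_nhds_unique hlim1 hlim2⟩
      · rintro _ ⟨b, rfl⟩
        refine ⟨b, fun n => ⟨b, ?_, ?_⟩⟩
        · rw [pre_length]
        · rw [pre_length]
  -- the sign sequence
  let e : ℕ → Prop := fun i =>
    (∃ t m, i = 2 * Nat.pair (Encodable.encode t) m ∧ K t m) ∨
    (∃ j k, i = 2 * Nat.pair j k + 1 ∧ (s j).2 k = 1)
  have he1 : ∀ (t : List ℕ) m, e (2 * Nat.pair (Encodable.encode t) m) ↔ K t m := by
    intro t m
    constructor
    · rintro (⟨t', m', h1, h2⟩ | ⟨j, k, h1, -⟩)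
      · have h3 := Nat.pair_eq_pair.1 (Nat.eq_of_mul_eq_mul_left two_pos h1)
        rw [Encodable.encode_injective h3.1, h3.2]
        exact h2
      · omega
    · intro h
      exact Or.inl ⟨t, m, rfl, h⟩
  have he2 : ∀ j k, e (2 * Nat.pair j k + 1) ↔ (s j).2 k = 1 := by
    intro j k
    constructor
    · rintro (⟨t', m', h1, -⟩ | ⟨j', k', h1, h2⟩)
      · omega
      · have h3 := Nat.pair_eq_pair.1 (Nat.eq_of_mul_eq_mul_left two_pos (Nat.succ_injective h1))
        rw [h3.1, h3.2]
        exact h2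
    · intro h
      exact Or.inr ⟨j, k, rfl, h⟩
  -- bounds for the coordinates
  have hbd : ∀ i, ∃ M : ℤ, ∀ n, |(s n).1 i| ≤ M := by
    intro i
    have h1 : Tendsto (fun n => |(s n).1 i|) atTop (𝓝 |(0 : (ℕ → ℤ) × (ℕ → ZMod 2)).1 i|) :=
      (continuous_abs.comp ((continuous_apply i).comp continuous_fst)).continuousAt.tendsto.comp hs
    obtain ⟨M, hM⟩ := h1.bddAbove_range
    exact ⟨M, fun n => hM ⟨n, rfl⟩⟩
  choose M hM using hbd
  let x : ℕ → ℤ := fun i => if e i then M i else -M i - 1
  have hx : ∀ n i, 0 ≤ (x + (s n).1) i ↔ e i := by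
    intro n i
    have h1 := abs_le.1 (hM i n)
    have h2 : (x + (s n).1) i = (if e i then M i else -M i - 1) + (s n).1 i := rfl
    rw [h2]
    by_cases h : e i
    · simp only [h, if_true, iff_true]
      linarith
    · simp only [h, if_false, iff_false]
      linarith
  refine ⟨(x, 0), fun n => ?_⟩
  set xn : ℕ → ℤ := x + (s n).1 with hxn
  have hp : ∀ j, p xn j = (s j).2 := by
    intro j
    funext k
    simp only [p]
    rw [if_congr ((hx n _).trans (he2 j k)) rfl rfl]
    have h01 : ∀ z : ZMod 2, (if z = 1 then (1 : ZMod 2) else 0) = z := by decide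
    exact h01 _
  have hC : ∀ j t, C xn j t ↔ K t (iota t.length (restr t.length (xn, p xn j))) := by
    intro j t
    rw [C, hx n, place, he1]
  have hBr : ∀ j, Br (C xn j) ↔ (xn, p xn j) ∈ B := by
    intro j
    constructor
    · rintro ⟨b, hb⟩
      refine hK1 _ b fun m => ?_
      have h1 := (hC j _).1 (hb m)
      rw [pre_length] at h1
      exact h1
    · intro h
      obtain ⟨b, hb⟩ := hK2 _ h
      refine ⟨b, fun m => ?_⟩
      rw [hC, pre_length]
      exact hb m
  have hall : ∀ j, Br (C xn j) := by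
    intro j
    by_contra hcon
    obtain ⟨k, hk⟩ := exists_sel (T := C xn) hcon
    exact hk.1 ((hBr k).2 (hAB ⟨k, hk, rfl⟩))
  have h1 := (hBr n).1 (hall n)
  rw [hp] at h1
  have h2 : ((x, 0) : (ℕ → ℤ) × (ℕ → ZMod 2)) + s n = (xn, (s n).2) := by
    ext <;> simp [hxn]
  rw [h2]
  exact h1

/-- **Negative answer to Q2.**  There are an abelian Polish group `X` and a coanalytic null-finite
set `A ⊆ X` contained in no Borel null-finite subset of `X`; moreover every analytic subset of `X`
containing `A` contains a translate of every null-sequence. -/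
theorem result : ∃ (X : Type) (_ : AddCommGroup X) (_ : TopologicalSpace X)
    (_ : IsTopologicalAddGroup X) (_ : PolishSpace X) (A : Set X),
    AnalyticSet Aᶜ ∧ NullFinite A ∧
    (∀ B : Set X, @MeasurableSet X (borel X) B → A ⊆ B → ¬ NullFinite B) ∧
    ∀ B : Set X, AnalyticSet B → A ⊆ B → ∀ s : ℕ → X, Tendsto s atTop (𝓝 0) →
      ∃ x, ∀ n, x + s n ∈ B := by
  refine ⟨(ℕ → ℤ) × (ℕ → ZMod 2), inferInstance, inferInstance, inferInstance, inferInstance, A,
    analyticSet_compl_A, nullFinite_A, ?_, fun B hB hAB s hs => translate_subset hB hAB hs⟩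
  rintro B hB hAB ⟨s, hs, hfin⟩
  have hB' : AnalyticSet B := by
    borelize ((ℕ → ℤ) × (ℕ → ZMod 2))
    exact MeasurableSet.analyticSet hB
  obtain ⟨x, hx⟩ := translate_subset hB' hAB hs
  have h1 : {n | x + s n ∈ B} = Set.univ := Set.eq_univ_of_forall hx
  have h2 := hfin x
  rw [h1] at h2
  exact Set.infinite_univ h2

end Pool.Agent.Results.MP_ceb5ee_gt.CoanalyticNoHull
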